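import Pool.Agent.H45.CF.Targets
import Pool.Agent.H7.HD.All

/-!
Row FW of the board hdf: the number of disjoint positive sets.
-/

open Ordinal Cardinal Order Set
open scoped ZFSet

universe u

namespace Pool.Agent.H86.CF

open _root_.HD

theorem pf_FW : HD.CF.T_FW.{u} := by
  intro β hβ s hs
  have hlim : IsSuccLimit β := Ordinal.one_lt_cof_iff.1 (Cardinal.one_lt_aleph0.trans hβ)
  obtain ⟨B, hB, _, e, he⟩ := HD.All.vg β hlim
  refine ⟨fun a => Classical.epsilon fun i => s (e a) i, fun i hi => ?_⟩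
  obtain ⟨b, _, hbB, hbs, _⟩ := hi B hB
  obtain ⟨a, ha, hab⟩ := he b hbB
  refine ⟨a, ha, ?_⟩
  have h1 : s (e a) i := by rw [hab]; exact hbs
  exact hs (e a) _ _ (Classical.epsilon_spec ⟨i, h1⟩) h1

end Pool.Agent.H86.CF
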