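import Pool.Agent.H45.CF.Targets
import Pool.Agent.H45.NF.DW

/-!
Row FS of the board hdf: finite sequences of ordinals are in HOD.
-/

open Ordinal Cardinal Order Set
open scoped ZFSet

universe u

namespace Pool.Agent.H86.CF

open _root_.HD _root_.HD.NF Pool.Agent.H45.NF

theorem hod_insert {x y : ZFSet.{u}} (hx : HOD x) (hy : HOD y) : HOD (insert x y) := by
  refine hod_iff.2 ⟨?_, fun z hz => ?_⟩
  · refine OD.of_dz ?_
    refine DZ.od (R := fun a v => v 0 = insert a y) hx.od
      (DZ.od (R := fun b v => v 1 = insert (v 0) b) hy.od ?_)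
    exact (loc_insert 2 1 0).dz
  · rcases ZFSet.mem_insert_iff.1 hz with rfl | h
    · exact hx
    · exact (hod_iff.1 hy).2 z h

theorem pf_FS : HD.CF.T_FS.{u} := by
  intro s o hs
  refine ⟨⟨_, hs⟩, fun ξ hξ => ?_⟩
  obtain ⟨n, rfl⟩ := Ordinal.lt_omega0.1 hξ
  clear hξ
  induction n with
  | zero =>
    have h1 : rst s ((0 : ℕ) : Ordinal.{u}) = (0 : Ordinal.{u}).toZFSet := by
      rw [toZFSet_zero]
      rw [ZFSet.eq_empty]
      intro z hz
      rw [mem_rst] at hz
      obtain ⟨_, a, ha, _⟩ := hz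
      rw [Nat.cast_zero] at ha
      exact absurd ha not_lt_zero
    rw [h1]
    exact HOD.ordinal 0
  | succ n ih =>
    have hn : (n : Ordinal.{u}).toZFSet ∈ (ω : Ordinal.{u}).toZFSet :=
      toZFSet_mem_toZFSet_iff.2 (Ordinal.natCast_lt_omega0 n)
    obtain ⟨w, hw, hwu⟩ := hs.2 _ hn
    have hw' : ZFSet.pair (n : Ordinal.{u}).toZFSet w ∈ s := hw
    have hwo : w ∈ o.toZFSet := by
      have h1 := hs.1 hw'
      rw [ZFSet.pair_mem_prod] at h1
      exact h1.2
    obtain ⟨c, _, rfl⟩ := mem_toZFSet_iff.1 hwo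
    have h1 : rst s ((n + 1 : ℕ) : Ordinal.{u}) =
        insert (ZFSet.pair (n : Ordinal.{u}).toZFSet c.toZFSet) (rst s (n : Ordinal.{u})) := by
      ext z
      rw [ZFSet.mem_insert_iff, mem_rst, mem_rst]
      constructor
      · rintro ⟨hz, a, ha, y, rfl⟩
        rw [Nat.cast_succ, Order.lt_add_one_iff] at ha
        rcases ha.lt_or_eq with h | h
        · exact Or.inr ⟨hz, a, h, y, rfl⟩
        · left
          rw [h] at hz ⊢
          rw [hwu y hz]
      · rintro (rfl | ⟨hz, a, ha, y, rfl⟩)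
        · exact ⟨hw', (n : Ordinal.{u}), by
            rw [Nat.cast_succ]
            exact Order.lt_add_one_iff.2 le_rfl, _, rfl⟩
        · exact ⟨hz, a, by
            rw [Nat.cast_succ]
            exact Order.lt_add_one_iff.2 ha.le, y, rfl⟩
    rw [h1]
    exact hod_insert ((HOD.ordinal _).pair (HOD.ordinal _)) ih

end Pool.Agent.H86.CF
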