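import Pool.Agent.H91.CF.TA
import Pool.Agent.H96.CN.NEL

/-!
# Row ANLF of `cfm_modules`: the element of the group ring at the small primes
-/

set_option autoImplicit false

open MeasureTheory Set Filter
open Pool.Agent.H31.CN Pool.Agent.H91.CF
open Pool.Agent.H96.CN (Av Per2)
open scoped Real

namespace Pool.Agent.H86.CF

open Pool.Agent.H96.CN (div_sum)

theorem pf_NLf (hLCU : T_LCU) (hLCR : T_LCR) (hLPf : T_LPf) (hRDF : T_RDF) : T_NLf := by
  classical
  intro N f lam hf hN hN2 hsq hpN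
  obtain ⟨hr1, hr2, hr3, hr4, hr5, hr6, hr7, hr8, hr9, hr10, hr11, hr12, hr13⟩ :=
    hRDF N f hf hsq hpN
  have hN0 : N ≠ 0 := by omega
  have hex : ∀ p : ℕ, ∃ F : ℕ → ℕ × ℕ → ℝ, p.Prime →
      ((∀ t, t ≤ (if p ∣ f then 1 else 2) → ∀ e A, 1 ≤ e → 1 ≤ A →
        Av (qlp f p) (wlo f p (lam p) t e A) =
          ∑ x ∈ Ip p, if x.1 ∣ A ∧ x.2 ∣ e then F t x else 0) ∧
      (¬ p ∣ f → ∑ x ∈ Ip p, (F 0 x + 2 * F 1 x + F 2 x) / ((x.1 : ℝ) * x.2) =
        (1 - 1 / (p : ℝ)) ^ 3 * ∑ τ ∈ ({-1, 0, 1} : Finset ℤ), lam p τ * dd p τ) ∧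
      (p ∣ f → ∑ x ∈ Ip p, (F 0 x + F 1 x) / ((x.1 : ℝ) * x.2) =
        (1 - 1 / (p : ℝ)) ^ 3 *
          (∑ τ ∈ ({-1, 0, 1} : Finset ℤ), lam p τ * pit f p τ * dd p τ) /
            (sqp f p : ℝ))) := by
    intro p
    by_cases hp : p.Prime
    · by_cases hpf : p ∣ f
      · obtain ⟨F, h1, h2⟩ := hLCR f p (lam p) hf hp hpf
        refine ⟨F, fun _ => ⟨?_, fun h => absurd hpf h, fun _ => h2⟩⟩
        rw [if_pos hpf]
        exact h1
      · obtain ⟨F, h1, h2⟩ := hLCU f p (lam p) hf hp hpf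
        refine ⟨F, fun _ => ⟨?_, fun _ => h2, fun h => absurd h hpf⟩⟩
        rw [if_neg hpf]
        exact h1
    · exact ⟨fun _ _ => 0, fun h => absurd h hp⟩
  choose fp hfp using hex
  let S : Finset ℕ := N.primeFactors
  let P : Finset ((a : ℕ) → a ∈ S → ℕ × ℕ) := S.pi Ip
  let pr : ((a : ℕ) → a ∈ S → ℕ × ℕ) → ℕ × ℕ := fun y =>
    (∏ p ∈ S.attach, (y p.1 p.2).1, ∏ p ∈ S.attach, (y p.1 p.2).2)
  have htt : ∀ p n₁ n₂ d, sta f n₁ n₂ d p ≤ (if p ∣ f then 1 else 2) := by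
    intro p n₁ n₂ d
    unfold sta
    split_ifs <;> omega
  have hprime : ∀ p ∈ S, p.Prime := fun p hp => Nat.prime_of_mem_primeFactors hp
  have hpow : ∀ p, ∀ z ∈ ({1, p, p ^ 2} : Finset ℕ), ∃ k, k ≤ 2 ∧ z = p ^ k := by
    intro p z hz
    simp only [Finset.mem_insert, Finset.mem_singleton] at hz
    rcases hz with h | h | h
    · exact ⟨0, by norm_num, by rw [h, pow_zero]⟩
    · exact ⟨1, by norm_num, by rw [h, pow_one]⟩
    · exact ⟨2, le_rfl, h⟩
  have hy : ∀ y ∈ P, ∀ p : S, (∃ k, k ≤ 2 ∧ (y p.1 p.2).1 = p.1 ^ k) ∧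
      (∃ k, k ≤ 2 ∧ (y p.1 p.2).2 = p.1 ^ k) := by
    intro y hyP p
    have h1 := Finset.mem_pi.mp hyP p.1 p.2
    have h2 := Finset.mem_product.mp h1
    exact ⟨hpow _ _ h2.1, hpow _ _ h2.2⟩
  have hdvd : ∀ (g : S → ℕ) (A : ℕ), (∀ p : S, ∃ k, k ≤ 2 ∧ g p = p.1 ^ k) →
      ((∏ p ∈ S.attach, g p) ∣ A ↔ ∀ p ∈ S.attach, g p ∣ A) := by
    intro g A hg
    constructor
    · intro h p hp
      exact (Finset.dvd_prod_of_mem g hp).trans h
    · intro h
      refine Finset.prod_dvd_of_isRelPrime ?_ h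
      intro p hp q hq hpq
      obtain ⟨k, _, hk⟩ := hg p
      obtain ⟨l, _, hl⟩ := hg q
      show Function.onFun _ _ _ _
      unfold Function.onFun
      rw [hk, hl]
      have : Nat.Coprime (p.1 ^ k) (q.1 ^ l) := Nat.Coprime.pow k l
        ((Nat.coprime_primes (hprime _ p.2) (hprime _ q.2)).mpr (fun h => hpq (Subtype.ext h)))
      exact Nat.coprime_iff_isRelPrime.mp this
  refine ⟨P.image pr, fun n₁ n₂ d x => ∑ y ∈ P.filter (fun y => pr y = x),
    ∏ p ∈ S.attach, fp p.1 (sta f n₁ n₂ d p.1) (y p.1 p.2), ?_, ?_, ?_⟩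
  · intro x hx
    obtain ⟨y, hyP, rfl⟩ := Finset.mem_image.mp hx
    have hN' : N ^ 2 = ∏ p ∈ S.attach, p.1 ^ 2 := by
      rw [Finset.prod_attach S (fun p => p ^ 2), Finset.prod_pow,
        Nat.prod_primeFactors_of_squarefree hsq]
    rw [hN']
    constructor
    · refine Finset.prod_dvd_prod_of_dvd _ _ fun p _ => ?_
      obtain ⟨k, hk, hk'⟩ := (hy y hyP p).1
      rw [hk']
      exact pow_dvd_pow _ hk
    · refine Finset.prod_dvd_prod_of_dvd _ _ fun p _ => ?_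
      obtain ⟨k, hk, hk'⟩ := (hy y hyP p).2
      rw [hk']
      exact pow_dvd_pow _ hk
  · intro n₁ n₂ d e A h₁ h₂ hd he hA
    rw [hLPf N f lam hf hN hN2 hsq hpN n₁ n₂ d h₁ h₂ hd e A he hA]
    have e1 : ∏ p ∈ N.primeFactors, Av (qlp f p) (wlo f p (lam p) (sta f n₁ n₂ d p) e A) =
        ∏ p ∈ S, ∑ x ∈ Ip p, if x.1 ∣ A ∧ x.2 ∣ e then fp p (sta f n₁ n₂ d p) x else 0 := by
      refine Finset.prod_congr rfl fun p hp => ?_
      exact (hfp p (hprime p hp)).1 _ (htt p n₁ n₂ d) e A he hA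
    rw [e1, Finset.prod_sum]
    have e2 : ∀ x ∈ P.image pr, (if x.1 ∣ A ∧ x.2 ∣ e then ∑ y ∈ P.filter (fun y => pr y = x),
        ∏ p ∈ S.attach, fp p.1 (sta f n₁ n₂ d p.1) (y p.1 p.2) else 0) =
        ∑ y ∈ P.filter (fun y => pr y = x), if (pr y).1 ∣ A ∧ (pr y).2 ∣ e then
          ∏ p ∈ S.attach, fp p.1 (sta f n₁ n₂ d p.1) (y p.1 p.2) else 0 := by
      intro x _
      by_cases h : x.1 ∣ A ∧ x.2 ∣ e
      · rw [if_pos h]
        refine Finset.sum_congr rfl fun y hy' => ?_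
        rw [(Finset.mem_filter.mp hy').2, if_pos h]
      · rw [if_neg h]
        symm
        refine Finset.sum_eq_zero fun y hy' => ?_
        rw [(Finset.mem_filter.mp hy').2, if_neg h]
    rw [Finset.sum_congr rfl e2]
    rw [Finset.sum_fiberwise_of_maps_to (fun y hyP => Finset.mem_image_of_mem pr hyP)]
    refine Finset.sum_congr rfl fun y hyP => ?_
    rw [Finset.prod_ite_zero]
    have e3 : ((pr y).1 ∣ A ∧ (pr y).2 ∣ e) ↔
        ∀ p ∈ S.attach, (y p.1 p.2).1 ∣ A ∧ (y p.1 p.2).2 ∣ e := by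
      simp only [pr]
      rw [hdvd (fun p => (y p.1 p.2).1) A (fun p => (hy y hyP p).1),
        hdvd (fun p => (y p.1 p.2).2) e (fun p => (hy y hyP p).2)]
      constructor
      · rintro ⟨h3, h4⟩ p hp
        exact ⟨h3 p hp, h4 p hp⟩
      · intro h
        exact ⟨fun p hp => (h p hp).1, fun p hp => (h p hp).2⟩
    by_cases h : (pr y).1 ∣ A ∧ (pr y).2 ∣ e
    · rw [if_pos h, if_pos (e3.mp h)]
    · rw [if_neg h, if_neg (fun h' => h (e3.mpr h'))]
  · -- the total mass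
    let g : ℕ → ℕ → ℝ := fun p t => ∑ x ∈ Ip p, fp p t x / ((x.1 : ℝ) * x.2)
    have e1 : ∀ n₁ n₂ d : ℕ, ∑ x ∈ P.image pr, (∑ y ∈ P.filter (fun y => pr y = x),
        ∏ p ∈ S.attach, fp p.1 (sta f n₁ n₂ d p.1) (y p.1 p.2)) / ((x.1 : ℝ) * x.2) =
        ∏ p ∈ S, g p (sta f n₁ n₂ d p) := by
      intro n₁ n₂ d
      simp only [g]
      rw [Finset.prod_sum]
      have e2 : ∀ x ∈ P.image pr, (∑ y ∈ P.filter (fun y => pr y = x),
          ∏ p ∈ S.attach, fp p.1 (sta f n₁ n₂ d p.1) (y p.1 p.2)) / ((x.1 : ℝ) * x.2) =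
          ∑ y ∈ P.filter (fun y => pr y = x), (∏ p ∈ S.attach,
            fp p.1 (sta f n₁ n₂ d p.1) (y p.1 p.2)) / (((pr y).1 : ℝ) * (pr y).2) := by
        intro x _
        rw [Finset.sum_div]
        refine Finset.sum_congr rfl fun y hy' => ?_
        rw [(Finset.mem_filter.mp hy').2]
      rw [Finset.sum_congr rfl e2,
        Finset.sum_fiberwise_of_maps_to (fun y hyP => Finset.mem_image_of_mem pr hyP)]
      refine Finset.sum_congr rfl fun y _ => ?_
      simp only [pr]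
      push_cast
      rw [← Finset.prod_mul_distrib, ← Finset.prod_div_distrib]
    simp only [e1]
    -- split into the primes dividing f and the others
    have hfS : S.filter (fun p => p ∣ f) = f.primeFactors := by
      ext p
      rw [Finset.mem_filter, Nat.mem_primeFactors, Nat.mem_primeFactors]
      constructor
      · rintro ⟨⟨hp, _, _⟩, hpf⟩
        exact ⟨hp, hpf, by omega⟩
      · rintro ⟨hp, hpf, _⟩
        exact ⟨⟨hp, hpN p hp hpf, hN0⟩, hpf⟩
    have e2 : ∀ n₁ n₂ d : ℕ, ∏ p ∈ S, g p (sta f n₁ n₂ d p) =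
        (∏ p ∈ (nf N f).primeFactors,
          g p ((if p ∣ n₁ then 1 else 0) + (if p ∣ n₂ then 1 else 0))) *
        ∏ p ∈ (rd f).primeFactors, (if p ∣ d then g p 1 else g p 0) := by
      intro n₁ n₂ d
      rw [← Finset.prod_filter_mul_prod_filter_not S (fun p => p ∣ f), hfS, hr2, hr8, mul_comm]
      congr 1
      · refine Finset.prod_congr rfl fun p hp => ?_
        rw [Finset.mem_filter] at hp
        unfold sta
        rw [if_neg hp.2]
      · refine Finset.prod_congr rfl fun p hp => ?_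
        unfold sta
        rw [if_pos (Nat.dvd_of_mem_primeFactors hp)]
        split_ifs <;> rfl
    simp only [e2]
    have e3 : ∀ n₁ n₂ : ℕ, ∑ d ∈ (rd f).divisors, (∏ p ∈ (nf N f).primeFactors,
          g p ((if p ∣ n₁ then 1 else 0) + (if p ∣ n₂ then 1 else 0))) *
        ∏ p ∈ (rd f).primeFactors, (if p ∣ d then g p 1 else g p 0) =
        (∏ p ∈ (nf N f).primeFactors,
          g p ((if p ∣ n₁ then 1 else 0) + (if p ∣ n₂ then 1 else 0))) *
        ∏ p ∈ (rd f).primeFactors, (g p 1 + g p 0) := by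
      intro n₁ n₂
      rw [← Finset.mul_sum, div_sum (rd f) hr1]
    simp only [e3]
    have e4 : ∀ n₁ : ℕ, ∑ n₂ ∈ (nf N f).divisors, (∏ p ∈ (nf N f).primeFactors,
          g p ((if p ∣ n₁ then 1 else 0) + (if p ∣ n₂ then 1 else 0))) *
        ∏ p ∈ (rd f).primeFactors, (g p 1 + g p 0) =
        (∏ p ∈ (nf N f).primeFactors, (if p ∣ n₁ then g p 2 + g p 1 else g p 1 + g p 0)) *
          ∏ p ∈ (rd f).primeFactors, (g p 1 + g p 0) := by
      intro n₁
      rw [← Finset.sum_mul]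
      congr 1
      have e5 : ∀ n₂ ∈ (nf N f).divisors, ∏ p ∈ (nf N f).primeFactors,
          g p ((if p ∣ n₁ then 1 else 0) + (if p ∣ n₂ then 1 else 0)) =
          ∏ p ∈ (nf N f).primeFactors, (if p ∣ n₂ then g p ((if p ∣ n₁ then 1 else 0) + 1) else
            g p ((if p ∣ n₁ then 1 else 0) + 0)) := by
        intro n₂ _
        refine Finset.prod_congr rfl fun p _ => ?_
        by_cases h : p ∣ n₂
        · rw [if_pos h, if_pos h]
        · rw [if_neg h, if_neg h]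
      rw [Finset.sum_congr rfl e5, div_sum (nf N f) hr7]
      refine Finset.prod_congr rfl fun p _ => ?_
      by_cases h : p ∣ n₁
      · simp [h]
      · simp [h]
    simp only [e4]
    rw [← Finset.sum_mul, div_sum (nf N f) hr7]
    have hS1 : ∀ p ∈ (nf N f).primeFactors, g p 2 + g p 1 + (g p 1 + g p 0) =
        (1 - 1 / (p : ℝ)) ^ 3 *
          ∑ τ ∈ ({-1, 0, 1} : Finset ℤ), lam p τ * pit f p τ * dd p τ := by
      intro p hp
      rw [hr8, Finset.mem_filter] at hp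
      have h := (hfp p (hprime p hp.1)).2.1 hp.2
      have e5 : g p 2 + g p 1 + (g p 1 + g p 0) = ∑ x ∈ Ip p,
          (fp p 0 x + 2 * fp p 1 x + fp p 2 x) / ((x.1 : ℝ) * x.2) := by
        simp only [g]
        rw [← Finset.sum_add_distrib, ← Finset.sum_add_distrib, ← Finset.sum_add_distrib]
        refine Finset.sum_congr rfl fun x _ => ?_
        ring
      rw [e5, h]
      congr 1
      refine Finset.sum_congr rfl fun τ _ => ?_
      unfold pit
      rw [if_neg hp.2, mul_one]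
    have hS2 : ∀ p ∈ (rd f).primeFactors, g p 1 + g p 0 =
        ((1 - 1 / (p : ℝ)) ^ 3 *
          ∑ τ ∈ ({-1, 0, 1} : Finset ℤ), lam p τ * pit f p τ * dd p τ) / (sqp f p : ℝ) := by
      intro p hp
      rw [hr2, ← hfS, Finset.mem_filter] at hp
      have h := (hfp p (hprime p hp.1)).2.2 hp.2
      have e5 : g p 1 + g p 0 = ∑ x ∈ Ip p,
          (fp p 0 x + fp p 1 x) / ((x.1 : ℝ) * x.2) := by
        simp only [g]
        rw [← Finset.sum_add_distrib]
        refine Finset.sum_congr rfl fun x _ => ?_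
        ring
      rw [e5, h]
    rw [Finset.prod_congr rfl hS1, Finset.prod_congr rfl hS2, Finset.prod_div_distrib, hr2]
    have e6 : ∏ p ∈ f.primeFactors, (sqp f p : ℝ) = (f1 f : ℝ) ^ 2 := by
      have := congrArg (fun z : ℤ => (z : ℝ)) hr10
      push_cast at this
      exact this
    rw [e6, ← mul_div_assoc]
    congr 1
    have e7 := Finset.prod_filter_mul_prod_filter_not S (fun p => p ∣ f) (fun p =>
      (1 - 1 / (p : ℝ)) ^ 3 *
          ∑ τ ∈ ({-1, 0, 1} : Finset ℤ), lam p τ * pit f p τ * dd p τ)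
    rw [hfS, mul_comm] at e7
    rw [hr8]
    exact e7

end Pool.Agent.H86.CF
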