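import Pool.Agent.H95.CF.Targets

set_option autoImplicit false

open NumberField Module MeasureTheory Set Filter Pool.Agent.H31.CN Pool.Agent.H95.CF
open scoped nonZeroDivisors Real

namespace Pool.Agent.H86.CF

/-- the parametrisation of the lattice of the vectors proportional to `v` modulo `f` -/
def io (v w : ℤ × ℤ) (f : ℕ) (p : ℤ × ℤ) : ℤ × ℤ :=
  (p.1 * v.1 + f * p.2 * w.1, p.1 * v.2 + f * p.2 * w.2)

theorem dt_io {v w : ℤ × ℤ} (h : dt v w = 1) (f : ℕ) (p : ℤ × ℤ) :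
    dt v (io v w f p) = f * p.2 := by
  unfold dt io at *
  simp only
  linear_combination ((f : ℤ) * p.2) * h

theorem io_inj {v w : ℤ × ℤ} (h : dt v w = 1) {f : ℕ} (hf : 1 ≤ f) :
    Function.Injective (io v w f) := by
  intro p q e
  have h1 : (f : ℤ) * p.2 = f * q.2 := by rw [← dt_io h, ← dt_io h, e]
  have hf0 : (f : ℤ) ≠ 0 := by exact_mod_cast (by omega : f ≠ 0)
  have h2 : p.2 = q.2 := mul_left_cancel₀ hf0 h1
  have e1 : p.1 * v.1 + f * p.2 * w.1 = q.1 * v.1 + f * q.2 * w.1 := congrArg Prod.fst e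
  have e2 : p.1 * v.2 + f * p.2 * w.2 = q.1 * v.2 + f * q.2 * w.2 := congrArg Prod.snd e
  rw [h2] at e1 e2
  have e3 : (p.1 - q.1) * v.1 = 0 := by linear_combination e1
  have e4 : (p.1 - q.1) * v.2 = 0 := by linear_combination e2
  have h3 : p.1 = q.1 := by
    unfold dt at h
    have : (p.1 - q.1) * (v.1 * w.2 - v.2 * w.1) = 0 := by
      linear_combination w.2 * e3 - w.1 * e4
    rw [h, mul_one] at this
    omega
  exact Prod.ext h3 h2

theorem io_range {v w : ℤ × ℤ} (h : dt v w = 1) {f : ℕ} {u : ℤ × ℤ} (hu : (f : ℤ) ∣ dt v u) :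
    u ∈ Set.range (io v w f) := by
  obtain ⟨y, hy⟩ := hu
  unfold dt at h hy
  refine ⟨(u.1 * w.2 - u.2 * w.1, y), ?_⟩
  refine Prod.ext ?_ ?_
  · show (u.1 * w.2 - u.2 * w.1) * v.1 + f * y * w.1 = u.1
    rw [← hy]
    linear_combination u.1 * h
  · show (u.1 * w.2 - u.2 * w.1) * v.2 + f * y * w.2 = u.2
    rw [← hy]
    linear_combination u.2 * h

theorem qd_io {v w : ℤ × ℤ} (Q : QF) {D : ℕ} (hQ : dsc Q = D) (h : dt v w = 1) (f : ℕ)
    (hA : 0 < val Q v) (p : ℤ × ℤ) :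
    qd (val Q v : ℤ) ((f : ℝ) * ((2 * Q.1 * v.1 * w.1 + Q.2.1 * (v.1 * w.2 + w.1 * v.2) +
      2 * Q.2.2 * v.2 * w.2 : ℤ) : ℝ)) ((f : ℝ) ^ 2 * D) p = ((val Q (io v w f p) : ℤ) : ℝ) := by
  set B : ℤ := 2 * Q.1 * v.1 * w.1 + Q.2.1 * (v.1 * w.2 + w.1 * v.2) + 2 * Q.2.2 * v.2 * w.2
    with hB
  have hA' : (0 : ℝ) < ((val Q v : ℤ) : ℝ) := by exact_mod_cast hA
  have e1 : (D : ℤ) = 4 * val Q v * val Q w - B ^ 2 := by
    rw [← hQ, hB]
    unfold dt at h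
    unfold dsc val
    have : (v.1 * w.2 - v.2 * w.1) ^ 2 = 1 := by rw [h]; norm_num
    linear_combination (-(4 * Q.1 * Q.2.2 - Q.2.1 ^ 2)) * this
  have e2 : val Q (io v w f p) = val Q v * p.1 ^ 2 + B * p.1 * (f * p.2) +
      val Q w * (f * p.2) ^ 2 := by
    rw [hB]
    unfold val io
    simp only
    ring
  have e1' : (D : ℝ) = 4 * ((val Q v : ℤ) : ℝ) * ((val Q w : ℤ) : ℝ) - (B : ℝ) ^ 2 := by
    exact_mod_cast e1
  rw [e2]
  unfold qd
  rw [div_eq_iff (by positivity), e1']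
  push_cast
  ring

open Classical in
theorem has_io {v w : ℤ × ℤ} (h : dt v w = 1) {f : ℕ} (hf : 1 ≤ f) (H : ℤ × ℤ → ℂ) (a : ℂ)
    (hs : HasSum (fun p : ℤ × ℤ => if p = 0 then 0 else H (io v w f p)) a) :
    HasSum (fun u : ℤ × ℤ => if u ≠ 0 ∧ (f : ℤ) ∣ dt v u then H u else 0) a := by
  have hinj := io_inj h hf
  have h0 : io v w f 0 = 0 := by
    unfold io
    simp
  refine (hinj.hasSum_iff ?_).mp ?_
  · intro u hu
    rw [if_neg]
    exact fun hh => hu (io_range h hh.2)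
  · have e : ((fun u : ℤ × ℤ => if u ≠ 0 ∧ (f : ℤ) ∣ dt v u then H u else 0) ∘ io v w f) =
        fun p : ℤ × ℤ => if p = 0 then 0 else H (io v w f p) := by
      funext p
      simp only [Function.comp]
      have hd : (f : ℤ) ∣ dt v (io v w f p) := by rw [dt_io h]; exact dvd_mul_right _ _
      by_cases hp : p = 0
      · rw [if_pos hp, if_neg]
        rw [hp, h0]
        exact fun hh => hh.1 rfl
      · rw [if_neg hp, if_pos]
        exact ⟨fun hh => hp (hinj (hh.trans h0.symm)), hd⟩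
    rw [e]
    exact hs

theorem pf_EPG (hEPR : T_EPR) (hQDV : T_QDV) (hZTH : T_ZTH) : T_EPG := by
  classical
  intro D f Q v hD hf hQ hv
  obtain ⟨a, b, hab⟩ := hv
  set w : ℤ × ℤ := (-b, a) with hw
  have hdt : dt v w = 1 := by
    unfold dt
    rw [hw]
    simp only
    linear_combination hab
  have hv0 : v ≠ 0 := by
    intro h0
    rw [h0] at hab
    simp at hab
  have hdsc : dsc Q = (D : ℤ) := hQ.2
  have hA : 0 < val Q v := by
    have h1 := (hQDV.1 (Q.1 : ℝ) (Q.2.1 : ℝ) ((dsc Q : ℤ) : ℝ) v (by exact_mod_cast hQ.1)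
      (by rw [hdsc]; exact_mod_cast hD)).2 hv0
    rw [hQDV.2.1 Q v hQ.1] at h1
    exact_mod_cast h1
  have hA' : (0 : ℝ) < ((val Q v : ℤ) : ℝ) := by exact_mod_cast hA
  have hf0 : (0 : ℝ) < f := by exact_mod_cast hf
  have hD0 : (0 : ℝ) < (D : ℝ) := by exact_mod_cast hD
  set B : ℝ := (f : ℝ) * ((2 * Q.1 * v.1 * w.1 + Q.2.1 * (v.1 * w.2 + w.1 * v.2) +
      2 * Q.2.2 * v.2 * w.2 : ℤ) : ℝ) with hB
  have hqd : ∀ p : ℤ × ℤ, qd ((val Q v : ℤ) : ℝ) B ((f : ℝ) ^ 2 * D) p =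
      ((val Q (io v w f p) : ℤ) : ℝ) := fun p => qd_io Q hdsc hdt f hA p
  have hΔ : (0 : ℝ) < (f : ℝ) ^ 2 * D := by positivity
  obtain ⟨F, E, hF, hE, hFE, hs, hF12⟩ := hEPR ((val Q v : ℤ) : ℝ) B ((f : ℝ) ^ 2 * D) hA' hΔ
  refine ⟨F, E, hF, hE, hFE, ?_, ?_⟩
  · intro s hs1
    have h1 := hs s hs1
    refine has_io hdt hf (fun u => ((val Q u : ℤ) : ℂ) ^ (-s)) _ ?_
    have e : (fun v_1 : ℤ × ℤ => if v_1 = 0 then (0 : ℂ) else
        ((qd ((val Q v : ℤ) : ℝ) B ((f : ℝ) ^ 2 * D) v_1 : ℝ) : ℂ) ^ (-s)) =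
        fun p : ℤ × ℤ => if p = 0 then 0 else ((val Q (io v w f p) : ℤ) : ℂ) ^ (-s) := by
      funext p
      by_cases hp : p = 0
      · rw [if_pos hp, if_pos hp]
      · rw [if_neg hp, if_neg hp, hqd p]
        push_cast
        rfl
    rw [← e]
    exact h1
  · refine has_io hdt hf (fun u => ((Vk (val Q u / (f * Real.sqrt D)) /
      Real.sqrt (val Q u) : ℝ) : ℂ)) _ ?_
    have h2 := (hZTH ((val Q v : ℤ) : ℝ) B ((f : ℝ) ^ 2 * D) hA' hΔ).1.hasSum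
    have h3 : HasSum (fun p : ℤ × ℤ => ((Vk (qd ((val Q v : ℤ) : ℝ) B ((f : ℝ) ^ 2 * D) p /
        Real.sqrt ((f : ℝ) ^ 2 * D)) / Real.sqrt (qd ((val Q v : ℤ) : ℝ) B
        ((f : ℝ) ^ 2 * D) p) : ℝ) : ℂ))
        ((zf ((val Q v : ℤ) : ℝ) B ((f : ℝ) ^ 2 * D) : ℝ) : ℂ) := by
      rw [Complex.hasSum_ofReal]
      exact h2
    have hsq : Real.sqrt ((f : ℝ) ^ 2 * D) = f * Real.sqrt D := by
      rw [Real.sqrt_mul (by positivity), Real.sqrt_sq hf0.le]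
    rw [hF12]
    have e : (fun p : ℤ × ℤ => ((Vk (qd ((val Q v : ℤ) : ℝ) B ((f : ℝ) ^ 2 * D) p /
        Real.sqrt ((f : ℝ) ^ 2 * D)) / Real.sqrt (qd ((val Q v : ℤ) : ℝ) B
        ((f : ℝ) ^ 2 * D) p) : ℝ) : ℂ)) =
        fun p : ℤ × ℤ => if p = 0 then (0 : ℂ) else
          ((Vk (val Q (io v w f p) / (f * Real.sqrt D)) /
            Real.sqrt (val Q (io v w f p)) : ℝ) : ℂ) := by
      funext p
      by_cases hp : p = 0
      · rw [if_pos hp, hqd p, hp]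
        have h0 : io v w f 0 = 0 := by
          unfold io
          simp
        rw [h0]
        have : val Q 0 = 0 := by unfold val; simp
        rw [this]
        simp
      · rw [if_neg hp, hqd p, hsq]
    rw [← e]
    exact h3

end Pool.Agent.H86.CF
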